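import Pool.Agent.helper73.AD.Basic

/-!
Module ad:BD (MP_a29257_gt): bounds of the first and second derivatives of the logarithms of the
entries of the arc matrices.
-/

namespace Pool.Agent.helper73.AD

open scoped BigOperators Topology

variable {J : Type} [Fintype J]

/-- Twice continuously differentiable at `z` with first and second derivative bounded by `B`. -/
def BD_p (f : PS J → ℝ) (z : PS J) (B : ℝ) : Prop :=
  ContDiffAt ℝ 2 f z ∧ (∀ x, |fderiv ℝ f z x| ≤ B * ‖x‖) ∧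
    ∀ x y, |hs f z x y| ≤ B * ‖x‖ * ‖y‖

theorem BD_mono {f : PS J → ℝ} {z : PS J} {B B' : ℝ} (h : BD_p f z B) (hB : B ≤ B') :
    BD_p f z B' := by
  refine ⟨h.1, fun x => (h.2.1 x).trans ?_, fun x y => (h.2.2 x y).trans ?_⟩
  · exact mul_le_mul_of_nonneg_right hB (norm_nonneg _)
  · exact mul_le_mul_of_nonneg_right (mul_le_mul_of_nonneg_right hB (norm_nonneg _)) (norm_nonneg _)

theorem BD_ev {f : PS J → ℝ} {z : PS J} (hf : ContDiffAt ℝ 2 f z) :
    ∀ᶠ u in 𝓝 z, DifferentiableAt ℝ f u := by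
  have h1 : ∀ᶠ u in 𝓝 z, ContDiffAt ℝ 2 f u := hf.eventually (by simp)
  filter_upwards [h1] with u hu
  exact hu.differentiableAt (by simp)

theorem BD_d2 {f : PS J → ℝ} {z : PS J} (hf : ContDiffAt ℝ 2 f z) :
    DifferentiableAt ℝ (fun u => fderiv ℝ f u) z := by
  have h := hf.fderiv_right (m := 1) (by norm_num)
  exact h.differentiableAt (by simp)

theorem BD_add {f g : PS J → ℝ} {z : PS J} {B C : ℝ} (hf : BD_p f z B) (hg : BD_p g z C) :
    BD_p (fun u => f u + g u) z (B + C) := by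
  have e : (fun u => fderiv ℝ (fun u => f u + g u) u) =ᶠ[𝓝 z]
      fun u => fderiv ℝ f u + fderiv ℝ g u := by
    filter_upwards [BD_ev hf.1, BD_ev hg.1] with u h1 h2
    exact fderiv_fun_add h1 h2
  refine ⟨hf.1.add hg.1, fun x => ?_, fun x y => ?_⟩
  · rw [e.eq_of_nhds]
    calc |(fderiv ℝ f z + fderiv ℝ g z) x| = |fderiv ℝ f z x + fderiv ℝ g z x| := rfl
      _ ≤ |fderiv ℝ f z x| + |fderiv ℝ g z x| := abs_add_le _ _
      _ ≤ B * ‖x‖ + C * ‖x‖ := add_le_add (hf.2.1 x) (hg.2.1 x)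
      _ = (B + C) * ‖x‖ := by ring
  · have h2 : hs (fun u => f u + g u) z x y = hs f z x y + hs g z x y := by
      unfold hs
      rw [e.fderiv_eq, fderiv_fun_add (BD_d2 hf.1) (BD_d2 hg.1)]
      rfl
    rw [h2]
    calc |hs f z x y + hs g z x y| ≤ |hs f z x y| + |hs g z x y| := abs_add_le _ _
      _ ≤ B * ‖x‖ * ‖y‖ + C * ‖x‖ * ‖y‖ := add_le_add (hf.2.2 x y) (hg.2.2 x y)
      _ = (B + C) * ‖x‖ * ‖y‖ := by ring

theorem BD_smul {f : PS J → ℝ} {z : PS J} {B : ℝ} (c : ℝ) (hf : BD_p f z B) :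
    BD_p (fun u => c * f u) z (|c| * B) := by
  have e : (fun u => fderiv ℝ (fun u => c * f u) u) =ᶠ[𝓝 z] fun u => c • fderiv ℝ f u := by
    filter_upwards [BD_ev hf.1] with u h1
    exact fderiv_const_mul h1 c
  refine ⟨contDiffAt_const.mul hf.1, fun x => ?_, fun x y => ?_⟩
  · rw [e.eq_of_nhds]
    have h1 : (c • fderiv ℝ f z) x = c * fderiv ℝ f z x := rfl
    rw [h1, abs_mul, mul_assoc]
    exact mul_le_mul_of_nonneg_left (hf.2.1 x) (abs_nonneg _)
  · have h2 : hs (fun u => c * f u) z x y = c * hs f z x y := by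
      unfold hs
      rw [e.fderiv_eq, fderiv_fun_const_smul (BD_d2 hf.1)]
      rfl
    rw [h2, abs_mul]
    have := mul_le_mul_of_nonneg_left (hf.2.2 x y) (abs_nonneg c)
    linarith

theorem BD_const (c : ℝ) (z : PS J) : BD_p (fun _ : PS J => c) z 0 := by
  have e : (fun u : PS J => fderiv ℝ (fun _ : PS J => c) u) = fun _ => 0 := by
    funext u
    exact (hasFDerivAt_const c u).fderiv
  refine ⟨contDiffAt_const, fun x => ?_, fun x y => ?_⟩
  · have := congrFun e z
    rw [this]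
    simp
  · unfold hs
    rw [e]
    simp

theorem BD_sub {f g : PS J → ℝ} {z : PS J} {B C : ℝ} (hf : BD_p f z B) (hg : BD_p g z C) :
    BD_p (fun u => f u - g u) z (B + C) := by
  have h := BD_add hf (BD_smul (-1) hg)
  have e : (fun u => f u + -1 * g u) = fun u => f u - g u := by
    funext u
    ring
  rw [e] at h
  simpa using h

/-- log-sum-exp of linear functionals -/
theorem BD_lse {ι : Type} [Fintype ι] [Nonempty ι] (l : ι → (PS J →L[ℝ] ℝ))
    (hl : ∀ i x, |l i x| ≤ ‖x‖) (z : PS J) :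
    BD_p (fun u => Real.log (∑ i, Real.exp (l i u))) z 3 := by
  have hW0 : ∀ u : PS J, 0 < ∑ i, Real.exp (l i u) := fun u =>
    Finset.sum_pos (fun i _ => Real.exp_pos _) Finset.univ_nonempty
  have hW : ∀ u : PS J, HasFDerivAt (fun u : PS J => ∑ i, Real.exp (l i u))
      (∑ i, Real.exp (l i u) • l i) u := by
    intro u
    refine HasFDerivAt.fun_sum fun i _ => ?_
    exact (l i).hasFDerivAt.exp
  have e : (fun u => fderiv ℝ (fun u => Real.log (∑ i, Real.exp (l i u))) u) =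
      fun u => (∑ i, Real.exp (l i u))⁻¹ • ∑ i, Real.exp (l i u) • l i := by
    funext u
    exact ((hW u).log (hW0 u).ne').fderiv
  have hb : ∀ (u x : PS J), |(∑ i, Real.exp (l i u) • l i) x| ≤ (∑ i, Real.exp (l i u)) * ‖x‖ := by
    intro u x
    rw [sum_apply, Finset.sum_mul]
    refine (Finset.abs_sum_le_sum_abs _ _).trans (Finset.sum_le_sum fun i _ => ?_)
    have h1 : (Real.exp (l i u) • l i) x = Real.exp (l i u) * l i x := rfl
    rw [h1, abs_mul, abs_of_pos (Real.exp_pos _)]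
    exact mul_le_mul_of_nonneg_left (hl i x) (Real.exp_pos _).le
  refine ⟨?_, fun x => ?_, fun x y => ?_⟩
  · refine ContDiffAt.log ?_ (hW0 z).ne'
    refine ContDiffAt.sum fun i _ => ?_
    exact ((l i).contDiff.contDiffAt).exp
  · have h1 := congrFun e z
    rw [h1]
    have h2 : ((∑ i, Real.exp (l i z))⁻¹ • ∑ i, Real.exp (l i z) • l i) x
        = (∑ i, Real.exp (l i z))⁻¹ * (∑ i, Real.exp (l i z) • l i) x := rfl
    rw [h2, abs_mul, abs_of_pos (inv_pos.2 (hW0 z))]
    calc (∑ i, Real.exp (l i z))⁻¹ * |(∑ i, Real.exp (l i z) • l i) x|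
        ≤ (∑ i, Real.exp (l i z))⁻¹ * ((∑ i, Real.exp (l i z)) * ‖x‖) :=
          mul_le_mul_of_nonneg_left (hb z x) (inv_pos.2 (hW0 z)).le
      _ = ‖x‖ := by rw [← mul_assoc, inv_mul_cancel₀ (hW0 z).ne', one_mul]
      _ ≤ 3 * ‖x‖ := by linarith [norm_nonneg x]
  · have hV : HasFDerivAt (fun u : PS J => ∑ i, Real.exp (l i u) • l i)
        (∑ i, (Real.exp (l i z) • l i).smulRight (l i)) z := by
      refine HasFDerivAt.fun_sum fun i _ => ?_
      exact ((l i).hasFDerivAt.exp).smul_const (l i)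
    have hI : HasFDerivAt (fun u : PS J => (∑ i, Real.exp (l i u))⁻¹)
        (-((∑ i, Real.exp (l i z)) ^ 2)⁻¹ • ∑ i, Real.exp (l i z) • l i) z := by
      have := (hasDerivAt_inv (hW0 z).ne').comp_hasFDerivAt z (hW z)
      exact this
    have hT : HasFDerivAt (fun u : PS J => (∑ i, Real.exp (l i u))⁻¹ • ∑ i, Real.exp (l i u) • l i)
        ((∑ i, Real.exp (l i z))⁻¹ • ∑ i, (Real.exp (l i z) • l i).smulRight (l i)
          + (-((∑ i, Real.exp (l i z)) ^ 2)⁻¹ • ∑ i, Real.exp (l i z) • l i).smulRight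
            (∑ i, Real.exp (l i z) • l i)) z := hI.smul hV
    have h1 : hs (fun u => Real.log (∑ i, Real.exp (l i u))) z x y
        = (∑ i, Real.exp (l i z))⁻¹ * ∑ i, Real.exp (l i z) * l i x * l i y
          - ((∑ i, Real.exp (l i z)) ^ 2)⁻¹ * (∑ i, Real.exp (l i z) • l i) x
            * (∑ i, Real.exp (l i z) • l i) y := by
      unfold hs
      rw [e, hT.fderiv]
      simp only [add_apply, smul_apply,
        ContinuousLinearMap.smulRight_apply, sum_apply, smul_eq_mul]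
      ring
    rw [h1]
    have h2 : |∑ i, Real.exp (l i z) * l i x * l i y|
        ≤ (∑ i, Real.exp (l i z)) * (‖x‖ * ‖y‖) := by
      rw [Finset.sum_mul]
      refine (Finset.abs_sum_le_sum_abs _ _).trans (Finset.sum_le_sum fun i _ => ?_)
      rw [abs_mul, abs_mul, abs_of_pos (Real.exp_pos _), mul_assoc]
      exact mul_le_mul_of_nonneg_left (mul_le_mul (hl i x) (hl i y) (abs_nonneg _)
        (norm_nonneg _)) (Real.exp_pos _).le
    have h3 := hb z x
    have h4 := hb z y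
    have hp := hW0 z
    set W : ℝ := ∑ i, Real.exp (l i z) with hWdef
    have h5 : |W⁻¹ * ∑ i, Real.exp (l i z) * l i x * l i y| ≤ ‖x‖ * ‖y‖ := by
      rw [abs_mul, abs_of_pos (inv_pos.2 hp)]
      calc W⁻¹ * |∑ i, Real.exp (l i z) * l i x * l i y| ≤ W⁻¹ * (W * (‖x‖ * ‖y‖)) :=
            mul_le_mul_of_nonneg_left h2 (inv_pos.2 hp).le
        _ = ‖x‖ * ‖y‖ := by rw [← mul_assoc, inv_mul_cancel₀ hp.ne', one_mul]
    have h6 : |(W ^ 2)⁻¹ * (∑ i, Real.exp (l i z) • l i) x * (∑ i, Real.exp (l i z) • l i) y|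
        ≤ ‖x‖ * ‖y‖ := by
      rw [abs_mul, abs_mul, abs_of_pos (inv_pos.2 (pow_pos hp 2))]
      calc (W ^ 2)⁻¹ * |(∑ i, Real.exp (l i z) • l i) x| * |(∑ i, Real.exp (l i z) • l i) y|
          ≤ (W ^ 2)⁻¹ * (W * ‖x‖) * (W * ‖y‖) := by
            refine mul_le_mul (mul_le_mul_of_nonneg_left h3 (inv_pos.2 (pow_pos hp 2)).le) h4
              (abs_nonneg _) ?_
            positivity
        _ = ‖x‖ * ‖y‖ := by field_simp
    have h7 := abs_sub (W⁻¹ * ∑ i, Real.exp (l i z) * l i x * l i y)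
      ((W ^ 2)⁻¹ * (∑ i, Real.exp (l i z) • l i) x * (∑ i, Real.exp (l i z) • l i) y)
    have h8 : 0 ≤ ‖x‖ * ‖y‖ := by positivity
    calc _ ≤ _ := h7
      _ ≤ ‖x‖ * ‖y‖ + ‖x‖ * ‖y‖ := add_le_add h5 h6
      _ ≤ 3 * ‖x‖ * ‖y‖ := by linarith

/-- linear functional of three lengths -/
noncomputable def BD_l (α β γ : ℝ) (a b c : J) : PS J →L[ℝ] ℝ :=
  LinearMap.toContinuousLinearMap
    { toFun := fun y => α * y.1 a + β * y.1 b + γ * y.1 c
      map_add' := fun y z => by
        simp only [Prod.fst_add, Pi.add_apply]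
        ring
      map_smul' := fun t y => by
        simp only [Prod.smul_fst, Pi.smul_apply, smul_eq_mul, RingHom.id_apply]
        ring }

theorem BD_l_apply (α β γ : ℝ) (a b c : J) (y : PS J) :
    BD_l α β γ a b c y = α * y.1 a + β * y.1 b + γ * y.1 c := rfl

theorem BD_l_le (α β γ : ℝ) (a b c : J) (h : |α| + |β| + |γ| ≤ 1) (y : PS J) :
    |BD_l α β γ a b c y| ≤ ‖y‖ := by
  rw [BD_l_apply]
  have h1 := abs_fst_le y a
  have h2 := abs_fst_le y b
  have h3 := abs_fst_le y c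
  calc |α * y.1 a + β * y.1 b + γ * y.1 c| ≤ |α * y.1 a| + |β * y.1 b| + |γ * y.1 c| :=
        abs_add_three _ _ _
    _ = |α| * |y.1 a| + |β| * |y.1 b| + |γ| * |y.1 c| := by rw [abs_mul, abs_mul, abs_mul]
    _ ≤ |α| * ‖y‖ + |β| * ‖y‖ + |γ| * ‖y‖ := by gcongr
    _ = (|α| + |β| + |γ|) * ‖y‖ := by ring
    _ ≤ 1 * ‖y‖ := mul_le_mul_of_nonneg_right h (norm_nonneg _)
    _ = ‖y‖ := one_mul _

theorem BD_lc (α β γ : ℝ) (a b c : J) (h : |α| + |β| + |γ| ≤ 1) (z : PS J) :
    BD_p (fun u => lc (α * u.1 a + β * u.1 b + γ * u.1 c)) z 3 := by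
  have h1 := BD_lse (ι := Bool)
    (fun s => if s then BD_l α β γ a b c else BD_l (-α) (-β) (-γ) a b c)
    (fun s x => by
      cases s
      · simpa using BD_l_le (-α) (-β) (-γ) a b c (by simpa using h) x
      · simpa using BD_l_le α β γ a b c h x) z
  have h2 := BD_sub h1 (BD_const (Real.log 2) z)
  have e : (fun u : PS J => Real.log (∑ s : Bool,
      Real.exp ((if s then BD_l α β γ a b c else BD_l (-α) (-β) (-γ) a b c) u)) - Real.log 2)
      = fun u => lc (α * u.1 a + β * u.1 b + γ * u.1 c) := by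
    funext u
    unfold lc
    rw [← Real.log_div (by
      rw [Fintype.sum_bool]
      positivity) (by norm_num)]
    congr 1
    rw [Fintype.sum_bool, Real.cosh_eq]
    simp only [if_true, Bool.false_eq_true, if_false, BD_l_apply]
    congr 3
    ring
  rw [e] at h2
  simpa using h2

theorem BD_ls_deriv {t : ℝ} (ht : 0 < t) : HasDerivAt ls (Real.cosh t / Real.sinh t) t := by
  have h1 := Real.hasDerivAt_sinh t
  exact h1.log (Real.sinh_pos_iff.2 ht).ne'

theorem BD_coth_deriv {t : ℝ} (ht : 0 < t) :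
    HasDerivAt (fun t => Real.cosh t / Real.sinh t) (-(Real.sinh t ^ 2)⁻¹) t := by
  have hs0 := Real.sinh_pos_iff.2 ht
  have h1 := (Real.hasDerivAt_cosh t).div (Real.hasDerivAt_sinh t) hs0.ne'
  have e : (Real.sinh t * Real.sinh t - Real.cosh t * Real.cosh t) / Real.sinh t ^ 2
      = -(Real.sinh t ^ 2)⁻¹ := by
    have hc := Real.cosh_sq t
    field_simp
    linarith
  rw [e] at h1
  exact h1

theorem BD_ls (δ : ℝ) (hδ : 0 < δ) (a : J) (z : PS J) (hz : δ ≤ z.1 a) :
    BD_p (fun u => ls (u.1 a / 2)) z (1 + 2 / δ + (2 / δ) ^ 2) := by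
  set l : PS J →L[ℝ] ℝ := BD_l (1 / 2) 0 0 a a a with hl
  have hla : ∀ u : PS J, l u = u.1 a / 2 := by
    intro u
    rw [hl, BD_l_apply]
    ring
  have hle : ∀ x, |l x| ≤ ‖x‖ := fun x => BD_l_le _ _ _ _ _ _ (by norm_num [abs_of_pos]) x
  have ef : (fun u : PS J => ls (u.1 a / 2)) = fun u => ls (l u) := by
    funext u
    rw [hla]
  rw [ef]
  have hz0 : 0 < l z := by
    rw [hla]
    linarith
  have hz1 : δ / 2 ≤ l z := by
    rw [hla]
    linarith
  have hev : ∀ᶠ u in 𝓝 z, 0 < l u := l.continuous.continuousAt.eventually (lt_mem_nhds hz0)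
  have hd : ∀ u, 0 < l u → HasFDerivAt (fun u => ls (l u))
      ((Real.cosh (l u) / Real.sinh (l u)) • l) u := by
    intro u hu
    exact (BD_ls_deriv hu).comp_hasFDerivAt u l.hasFDerivAt
  have e : (fun u => fderiv ℝ (fun u => ls (l u)) u) =ᶠ[𝓝 z]
      fun u => (Real.cosh (l u) / Real.sinh (l u)) • l := by
    filter_upwards [hev] with u hu
    exact (hd u hu).fderiv
  have hsinh : δ / 2 ≤ Real.sinh (l z) :=
    hz1.trans (Real.self_le_sinh_iff.2 hz0.le)
  have hs0 : 0 < Real.sinh (l z) := by linarith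
  have hinv : (Real.sinh (l z))⁻¹ ≤ 2 / δ := by
    have h1 := inv_anti₀ (by linarith : 0 < δ / 2) hsinh
    rwa [inv_div] at h1
  refine ⟨?_, fun x => ?_, fun x y => ?_⟩
  · have h1 : ContDiffAt ℝ 2 (fun u => Real.sinh (l u)) z :=
      (Real.contDiff_sinh.comp l.contDiff).contDiffAt
    exact h1.log hs0.ne'
  · rw [e.eq_of_nhds]
    have h1 : ((Real.cosh (l z) / Real.sinh (l z)) • l) x
        = (Real.cosh (l z) / Real.sinh (l z)) * l x := rfl
    rw [h1, abs_mul]
    have h2 : |Real.cosh (l z) / Real.sinh (l z)| ≤ 1 + 2 / δ := by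
      rw [abs_of_pos (div_pos (Real.cosh_pos _) hs0)]
      have h3 : Real.cosh (l z) ≤ Real.sinh (l z) + 1 := by
        have h4 := Real.cosh_sub_sinh (l z)
        have h5 : Real.exp (-(l z)) ≤ 1 := Real.exp_le_one_iff.2 (by linarith)
        linarith
      calc Real.cosh (l z) / Real.sinh (l z) ≤ (Real.sinh (l z) + 1) / Real.sinh (l z) := by
            gcongr
        _ = 1 + (Real.sinh (l z))⁻¹ := by
            field_simp
        _ ≤ 1 + 2 / δ := by linarith
    have h0 : 0 ≤ (2 / δ) ^ 2 := by positivity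
    calc |Real.cosh (l z) / Real.sinh (l z)| * |l x| ≤ (1 + 2 / δ) * ‖x‖ :=
          mul_le_mul h2 (hle x) (abs_nonneg _) (by positivity)
      _ ≤ (1 + 2 / δ + (2 / δ) ^ 2) * ‖x‖ :=
          mul_le_mul_of_nonneg_right (by linarith) (norm_nonneg _)
  · have hT : HasFDerivAt (fun u => (Real.cosh (l u) / Real.sinh (l u)) • l)
        (((-(Real.sinh (l z) ^ 2)⁻¹) • l).smulRight l) z :=
      ((BD_coth_deriv hz0).comp_hasFDerivAt z l.hasFDerivAt).smul_const l
    have h1 : hs (fun u => ls (l u)) z x y = -(Real.sinh (l z) ^ 2)⁻¹ * l x * l y := by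
      unfold hs
      rw [e.fderiv_eq, hT.fderiv]
      rfl
    rw [h1, abs_mul, abs_mul]
    have h2 : |-(Real.sinh (l z) ^ 2)⁻¹| ≤ (2 / δ) ^ 2 := by
      rw [abs_neg, abs_of_pos (inv_pos.2 (pow_pos hs0 2)), ← inv_pow]
      exact pow_le_pow_left₀ (inv_pos.2 hs0).le hinv 2
    have h0 : 0 ≤ 1 + 2 / δ := by positivity
    calc |-(Real.sinh (l z) ^ 2)⁻¹| * |l x| * |l y| ≤ (2 / δ) ^ 2 * ‖x‖ * ‖y‖ := by
          refine mul_le_mul (mul_le_mul h2 (hle x) (abs_nonneg _) (by positivity)) (hle y)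
            (abs_nonneg _) (by positivity)
      _ ≤ (1 + 2 / δ + (2 / δ) ^ 2) * ‖x‖ * ‖y‖ := by
          refine mul_le_mul_of_nonneg_right (mul_le_mul_of_nonneg_right (by linarith)
            (norm_nonneg _)) (norm_nonneg _)

/-- the logarithm of `cosh (q_b / 2) exp (s q_a / 2) + cosh (q_c / 2)`, `s = 1` or `-1` -/
theorem BD_w (s : ℝ) (hs1 : |s| = 1) (a b c : J) (z : PS J) :
    BD_p (fun u => Real.log (Real.cosh (u.1 b / 2) * Real.exp (s * (u.1 a / 2))
      + Real.cosh (u.1 c / 2))) z 3 := by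
  have h1 := BD_lse (ι := Fin 4)
    ![BD_l (s / 2) (1 / 2) 0 a b c, BD_l (s / 2) (-(1 / 2)) 0 a b c,
      BD_l 0 0 (1 / 2) a b c, BD_l 0 0 (-(1 / 2)) a b c]
    (fun i x => by
      fin_cases i
      · exact BD_l_le _ _ _ _ _ _ (by rw [abs_div, hs1]; norm_num [abs_of_pos]) x
      · exact BD_l_le _ _ _ _ _ _ (by rw [abs_div, abs_neg, hs1]; norm_num [abs_of_pos]) x
      · exact BD_l_le _ _ _ _ _ _ (by norm_num [abs_of_pos]) x
      · exact BD_l_le _ _ _ _ _ _ (by rw [abs_neg]; norm_num [abs_of_pos]) x) z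
  have h2 := BD_sub h1 (BD_const (Real.log 2) z)
  have e : (fun u : PS J => Real.log (∑ i : Fin 4, Real.exp
      ((![BD_l (s / 2) (1 / 2) 0 a b c, BD_l (s / 2) (-(1 / 2)) 0 a b c,
      BD_l 0 0 (1 / 2) a b c, BD_l 0 0 (-(1 / 2)) a b c] i) u)) - Real.log 2)
      = fun u => Real.log (Real.cosh (u.1 b / 2) * Real.exp (s * (u.1 a / 2))
        + Real.cosh (u.1 c / 2)) := by
    funext u
    have hpos : 0 < ∑ i : Fin 4, Real.exp
      ((![BD_l (s / 2) (1 / 2) 0 a b c, BD_l (s / 2) (-(1 / 2)) 0 a b c,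
      BD_l 0 0 (1 / 2) a b c, BD_l 0 0 (-(1 / 2)) a b c] i) u) :=
      Finset.sum_pos (fun i _ => Real.exp_pos _) Finset.univ_nonempty
    rw [← Real.log_div hpos.ne' (by norm_num)]
    congr 1
    rw [Fin.sum_univ_four, Real.cosh_eq, Real.cosh_eq]
    simp only [Matrix.cons_val_zero, Matrix.cons_val_one, Matrix.cons_val_two,
      Matrix.cons_val_three, Matrix.head_cons, Matrix.tail_cons, BD_l_apply]
    have e1 : s / 2 * u.1 a + 1 / 2 * u.1 b + 0 * u.1 c = u.1 b / 2 + s * (u.1 a / 2) := by ring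
    have e2 : s / 2 * u.1 a + -(1 / 2) * u.1 b + 0 * u.1 c = -(u.1 b / 2) + s * (u.1 a / 2) := by
      ring
    have e3 : 0 * u.1 a + 0 * u.1 b + 1 / 2 * u.1 c = u.1 c / 2 := by ring
    have e4 : 0 * u.1 a + 0 * u.1 b + -(1 / 2) * u.1 c = -(u.1 c / 2) := by ring
    rw [e1, e2, e3, e4, Real.exp_add, Real.exp_add]
    ring
  rw [e] at h2
  simpa using h2

theorem BD_lc4 (α β γ : ℝ) (a b c : J) (hα : |α| = 1) (hβ : |β| = 1) (hγ : |γ| = 1) (z : PS J) :
    BD_p (fun u => lc ((α * u.1 a + β * u.1 b + γ * u.1 c) / 4)) z 3 := by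
  have h := BD_lc (α / 4) (β / 4) (γ / 4) a b c (by
    rw [abs_div, abs_div, abs_div, hα, hβ, hγ]
    norm_num [abs_of_pos]) z
  have e : (fun u : PS J => lc (α / 4 * u.1 a + β / 4 * u.1 b + γ / 4 * u.1 c))
      = fun u => lc ((α * u.1 a + β * u.1 b + γ * u.1 c) / 4) := by
    funext u
    congr 1
    ring
  rw [e] at h
  exact h

/-- module ad:BD -/
theorem BD : BD_stmt := by
  intro J _ _ δ hδ
  set L : ℝ := 1 + 2 / δ + (2 / δ) ^ 2 with hL
  have hL0 : 0 ≤ L := by positivity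
  refine ⟨20 + 4 * L, by positivity, ?_⟩
  intro A z _ h1 h2 s s'
  have key : BD_p (fun z : PS J => A.g s s' z.1) z (20 + 4 * L) := by
    have o1 : |(1 : ℝ)| = 1 := abs_one
    have o2 : |(-1 : ℝ)| = 1 := by simp
    have half : |(1 / 2 : ℝ)| = 1 / 2 := abs_of_pos (by norm_num)
    cases A with
    | seam a b c =>
      have ha := BD_ls δ hδ a z h1
      have hb := BD_ls δ hδ b z h2
      rw [← hL] at ha hb
      have hdiag : BD_p (fun u : PS J => (lc ((u.1 a + u.1 b + u.1 c) / 4)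
          + lc ((u.1 a + u.1 b - u.1 c) / 4) - ls (u.1 a / 2) - ls (u.1 b / 2)) / 2) z
          (20 + 4 * L) := by
        have t1 := BD_lc4 1 1 1 a b c o1 o1 o1 z
        have t2 := BD_lc4 1 1 (-1) a b c o1 o1 o2 z
        have t3 := BD_smul (1 / 2) (BD_sub (BD_sub (BD_add t1 t2) ha) hb)
        have e : (fun u : PS J => 1 / 2 * (lc ((1 * u.1 a + 1 * u.1 b + 1 * u.1 c) / 4)
            + lc ((1 * u.1 a + 1 * u.1 b + -1 * u.1 c) / 4) - ls (u.1 a / 2) - ls (u.1 b / 2)))
            = fun u => (lc ((u.1 a + u.1 b + u.1 c) / 4)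
            + lc ((u.1 a + u.1 b - u.1 c) / 4) - ls (u.1 a / 2) - ls (u.1 b / 2)) / 2 := by
          funext u
          have e1 : 1 * u.1 a + 1 * u.1 b + 1 * u.1 c = u.1 a + u.1 b + u.1 c := by ring
          have e2 : 1 * u.1 a + 1 * u.1 b + -1 * u.1 c = u.1 a + u.1 b - u.1 c := by ring
          rw [e1, e2]
          ring
        rw [e, half] at t3
        exact BD_mono t3 (by linarith)
      have hoff : BD_p (fun u : PS J => (lc ((u.1 a - u.1 b + u.1 c) / 4)
          + lc ((-u.1 a + u.1 b + u.1 c) / 4) - ls (u.1 a / 2) - ls (u.1 b / 2)) / 2) z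
          (20 + 4 * L) := by
        have t1 := BD_lc4 1 (-1) 1 a b c o1 o2 o1 z
        have t2 := BD_lc4 (-1) 1 1 a b c o2 o1 o1 z
        have t3 := BD_smul (1 / 2) (BD_sub (BD_sub (BD_add t1 t2) ha) hb)
        have e : (fun u : PS J => 1 / 2 * (lc ((1 * u.1 a + -1 * u.1 b + 1 * u.1 c) / 4)
            + lc ((-1 * u.1 a + 1 * u.1 b + 1 * u.1 c) / 4) - ls (u.1 a / 2) - ls (u.1 b / 2)))
            = fun u => (lc ((u.1 a - u.1 b + u.1 c) / 4)
            + lc ((-u.1 a + u.1 b + u.1 c) / 4) - ls (u.1 a / 2) - ls (u.1 b / 2)) / 2 := by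
          funext u
          have e1 : 1 * u.1 a + -1 * u.1 b + 1 * u.1 c = u.1 a - u.1 b + u.1 c := by ring
          have e2 : -1 * u.1 a + 1 * u.1 b + 1 * u.1 c = -u.1 a + u.1 b + u.1 c := by ring
          rw [e1, e2]
          ring
        rw [e, half] at t3
        exact BD_mono t3 (by linarith)
      cases s <;> cases s'
      · exact hdiag
      · exact hoff
      · exact hoff
      · exact hdiag
    | wave a b c =>
      have ha := BD_ls δ hδ a z h1
      rw [← hL] at ha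
      have hdiag : BD_p (fun u : PS J => Real.log 2 + (lc ((u.1 a + u.1 b + u.1 c) / 4)
          + lc ((-u.1 a + u.1 b + u.1 c) / 4) + lc ((u.1 a - u.1 b + u.1 c) / 4)
          + lc ((u.1 a + u.1 b - u.1 c) / 4)) / 2 - ls (u.1 a / 2)) z (20 + 4 * L) := by
        have t1 := BD_lc4 1 1 1 a b c o1 o1 o1 z
        have t2 := BD_lc4 (-1) 1 1 a b c o2 o1 o1 z
        have t3 := BD_lc4 1 (-1) 1 a b c o1 o2 o1 z
        have t4 := BD_lc4 1 1 (-1) a b c o1 o1 o2 z
        have t5 := BD_sub (BD_add (BD_const (Real.log 2) z)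
          (BD_smul (1 / 2) (BD_add (BD_add (BD_add t1 t2) t3) t4))) ha
        have e : (fun u : PS J => Real.log 2 + 1 / 2 * (lc ((1 * u.1 a + 1 * u.1 b + 1 * u.1 c) / 4)
            + lc ((-1 * u.1 a + 1 * u.1 b + 1 * u.1 c) / 4)
            + lc ((1 * u.1 a + -1 * u.1 b + 1 * u.1 c) / 4)
            + lc ((1 * u.1 a + 1 * u.1 b + -1 * u.1 c) / 4)) - ls (u.1 a / 2))
            = fun u => Real.log 2 + (lc ((u.1 a + u.1 b + u.1 c) / 4)
          + lc ((-u.1 a + u.1 b + u.1 c) / 4) + lc ((u.1 a - u.1 b + u.1 c) / 4)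
          + lc ((u.1 a + u.1 b - u.1 c) / 4)) / 2 - ls (u.1 a / 2) := by
          funext u
          have e1 : 1 * u.1 a + 1 * u.1 b + 1 * u.1 c = u.1 a + u.1 b + u.1 c := by ring
          have e2 : -1 * u.1 a + 1 * u.1 b + 1 * u.1 c = -u.1 a + u.1 b + u.1 c := by ring
          have e3 : 1 * u.1 a + -1 * u.1 b + 1 * u.1 c = u.1 a - u.1 b + u.1 c := by ring
          have e4 : 1 * u.1 a + 1 * u.1 b + -1 * u.1 c = u.1 a + u.1 b - u.1 c := by ring
          rw [e1, e2, e3, e4]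
          ring
        rw [e, half] at t5
        exact BD_mono t5 (by linarith)
      have hneg : BD_p (fun u : PS J => Real.log (Real.cosh (u.1 b / 2) * Real.exp (-(u.1 a / 2))
          + Real.cosh (u.1 c / 2)) - ls (u.1 a / 2)) z (20 + 4 * L) := by
        have t1 := BD_sub (BD_w (-1) o2 a b c z) ha
        have e : (fun u : PS J => Real.log (Real.cosh (u.1 b / 2) * Real.exp (-1 * (u.1 a / 2))
            + Real.cosh (u.1 c / 2)) - ls (u.1 a / 2))
            = fun u => Real.log (Real.cosh (u.1 b / 2) * Real.exp (-(u.1 a / 2))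
            + Real.cosh (u.1 c / 2)) - ls (u.1 a / 2) := by
          funext u
          rw [neg_one_mul]
        rw [e] at t1
        exact BD_mono t1 (by linarith)
      have hposi : BD_p (fun u : PS J => Real.log (Real.cosh (u.1 b / 2) * Real.exp (u.1 a / 2)
          + Real.cosh (u.1 c / 2)) - ls (u.1 a / 2)) z (20 + 4 * L) := by
        have t1 := BD_sub (BD_w 1 o1 a b c z) ha
        have e : (fun u : PS J => Real.log (Real.cosh (u.1 b / 2) * Real.exp (1 * (u.1 a / 2))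
            + Real.cosh (u.1 c / 2)) - ls (u.1 a / 2))
            = fun u => Real.log (Real.cosh (u.1 b / 2) * Real.exp (u.1 a / 2)
            + Real.cosh (u.1 c / 2)) - ls (u.1 a / 2) := by
          funext u
          rw [one_mul]
        rw [e] at t1
        exact BD_mono t1 (by linarith)
      cases s <;> cases s'
      · exact hdiag
      · exact hposi
      · exact hneg
      · exact hdiag
  intro x y
  exact ⟨key.2.1 x, key.2.2 x y⟩

end Pool.Agent.helper73.AD
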