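import Pool.Agent.helper73.AD.Basic

/-!
Module ad:BF (MP_a29257_gt): basic formulas for the trace, the length function and the angles.
-/

namespace Pool.Agent.helper73.AD

open scoped BigOperators Topology

variable {J : Type}

theorem BF_bs_true : bs true = 1 := by simp [bs]

theorem BF_bs_false : bs false = -1 := by simp [bs]

theorem BF_L_true (w : Word J) (z : PS J) :
    w.L (fun _ => true) z = w.Y z / 2 + w.lP z := by
  unfold Word.L Word.Y Word.lP
  rw [Finset.sum_div, ← Finset.sum_add_distrib]
  refine Finset.sum_congr rfl fun i _ => ?_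
  rw [BF_bs_true]
  ring

theorem BF_L_false (hDT : DT_stmt) (w : Word J) (z : PS J) (hz : ∀ j, 0 < z.1 j) :
    w.L (fun _ => false) z = -(w.Y z / 2) + w.lP z := by
  unfold Word.L Word.Y Word.lP
  rw [Finset.sum_div, ← Finset.sum_neg_distrib, ← Finset.sum_add_distrib]
  refine Finset.sum_congr rfl fun i _ => ?_
  rw [BF_bs_false, (hDT J (w.A i) z.1 hz).1]
  ring

theorem BF_split (w : Word J) (z : PS J) :
    w.F z = w.W (fun _ => true) z + w.W (fun _ => false) z + w.Wm z := by
  classical
  have hne : (fun _ : Fin (w.n + 1) => true) ≠ (fun _ => false) := by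
    intro h
    have := congrFun h 0
    simp at this
  have h1 : w.F z = ∑ σ : Fin (w.n + 1) → Bool, ((if w.Mixed σ then w.W σ z else 0)
      + (if w.Mixed σ then 0 else w.W σ z)) := by
    unfold Word.F
    refine Finset.sum_congr rfl fun σ _ => ?_
    split_ifs <;> simp
  rw [h1, Finset.sum_add_distrib]
  have h2 : ∑ σ : Fin (w.n + 1) → Bool, (if w.Mixed σ then 0 else w.W σ z)
      = w.W (fun _ => true) z + w.W (fun _ => false) z := by
    have h3 : ∀ σ : Fin (w.n + 1) → Bool, (if w.Mixed σ then 0 else w.W σ z)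
        = (if σ = (fun _ => true) then w.W (fun _ => true) z else 0)
          + (if σ = (fun _ => false) then w.W (fun _ => false) z else 0) := by
      intro σ
      by_cases ht : σ = (fun _ => true)
      · have hm : ¬ w.Mixed σ := by
          rintro ⟨_, i, hi⟩
          rw [ht] at hi
          simp at hi
        rw [if_neg hm, if_pos ht, if_neg (by rw [ht]; exact hne), ht, add_zero]
      · by_cases hf : σ = (fun _ => false)
        · have hm : ¬ w.Mixed σ := by
            rintro ⟨⟨i, hi⟩, _⟩
            rw [hf] at hi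
            simp at hi
          rw [if_neg hm, if_neg ht, if_pos hf, hf, zero_add]
        · have hm : w.Mixed σ := by
            refine ⟨?_, ?_⟩
            · by_contra hcon
              push Not at hcon
              exact hf (funext fun i => by simpa using hcon i)
            · by_contra hcon
              push Not at hcon
              exact ht (funext fun i => by simpa using hcon i)
          rw [if_pos hm, if_neg ht, if_neg hf, add_zero]
    simp only [h3, Finset.sum_add_distrib, Finset.sum_ite_eq', Finset.mem_univ, if_true]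
  rw [h2]
  unfold Word.Wm
  ring

theorem BF_Wm_nonneg (w : Word J) (z : PS J) : 0 ≤ w.Wm z := by
  unfold Word.Wm
  refine Finset.sum_nonneg fun σ _ => ?_
  split_ifs
  · exact (Real.exp_pos _).le
  · exact le_refl _

theorem BF_gtt_pos (hDT : DT_stmt) (A : Arc J) (q : J → ℝ) (hq : ∀ j, 0 < q j) :
    0 < A.g true true q := by
  have h := (hDT J A q hq).2
  have h1 : 1 < Real.exp (2 * A.g true true q) := by
    rw [h]
    have := Real.exp_pos (A.g true false q + A.g false true q)
    linarith
  have := Real.one_lt_exp_iff.1 h1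
  linarith

theorem BF_lP_pos (hDT : DT_stmt) (w : Word J) (z : PS J) (hz : ∀ j, 0 < z.1 j) : 0 < w.lP z := by
  unfold Word.lP
  exact Finset.sum_pos (fun i _ => BF_gtt_pos hDT _ _ hz) ⟨0, Finset.mem_univ _⟩

theorem BF_F_eq (hDT : DT_stmt) (w : Word J) (z : PS J) (hz : ∀ j, 0 < z.1 j) :
    w.F z = 2 * Real.exp (w.lP z) * Real.cosh (w.Y z / 2) + w.Wm z := by
  rw [BF_split]
  have h1 : w.W (fun _ => true) z = Real.exp (w.lP z) * Real.exp (w.Y z / 2) := by
    unfold Word.W
    rw [BF_L_true, ← Real.exp_add, add_comm]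
  have h2 : w.W (fun _ => false) z = Real.exp (w.lP z) * Real.exp (-(w.Y z / 2)) := by
    unfold Word.W
    rw [BF_L_false hDT w z hz, ← Real.exp_add, add_comm]
  rw [h1, h2, Real.cosh_eq]
  ring

theorem BF_F_ge (hDT : DT_stmt) (w : Word J) (z : PS J) (hz : ∀ j, 0 < z.1 j) :
    2 * Real.exp (w.lP z) ≤ w.F z := by
  rw [BF_F_eq hDT w z hz]
  have h1 := Real.one_le_cosh (w.Y z / 2)
  have h2 := Real.exp_pos (w.lP z)
  have h3 := BF_Wm_nonneg w z
  nlinarith

theorem BF_F_gt (hDT : DT_stmt) (w : Word J) (z : PS J) (hz : ∀ j, 0 < z.1 j) : 2 < w.F z := by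
  have h1 := BF_F_ge hDT w z hz
  have h2 : 1 < Real.exp (w.lP z) := Real.one_lt_exp_iff.2 (BF_lP_pos hDT w z hz)
  linarith

theorem BF_H (w : Word J) (z : PS J) (hF : 2 < w.F z) :
    0 < w.H z ∧ 2 * Real.cosh (w.H z / 2) = w.F z := by
  set s : ℝ := (w.F z + Real.sqrt (w.F z ^ 2 - 4)) / 2 with hs
  have h0 : 0 ≤ Real.sqrt (w.F z ^ 2 - 4) := Real.sqrt_nonneg _
  have h1 : Real.sqrt (w.F z ^ 2 - 4) ^ 2 = w.F z ^ 2 - 4 := Real.sq_sqrt (by nlinarith)
  have hs1 : 1 < s := by rw [hs]; linarith
  have hs0 : 0 < s := by linarith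
  have hH : w.H z = 2 * Real.log s := rfl
  have hlog : 0 < Real.log s := Real.log_pos hs1
  refine ⟨by rw [hH]; linarith, ?_⟩
  have h2 : w.H z / 2 = Real.log s := by rw [hH]; ring
  rw [h2, Real.cosh_eq, Real.exp_neg, Real.exp_log hs0]
  have h3 : s * s - w.F z * s + 1 = 0 := by
    rw [hs]
    nlinarith
  have h4 : 2 * ((s + s⁻¹) / 2) = (s * s + 1) / s := by
    field_simp
  rw [h4, div_eq_iff hs0.ne']
  linarith

/-- module ad:BF -/
theorem BF_of (hDT : DT_stmt) : BF_stmt := by
  intro J _ _ w z hz
  have hz' : ∀ j, 0 < z.1 j := hz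
  have hF := BF_F_gt hDT w z hz'
  obtain ⟨hH, hcosh⟩ := BF_H w z hF
  have hlP := BF_lP_pos hDT w z hz'
  have hWT : w.W (fun _ => true) z = Real.exp (w.Y z / 2 + w.lP z) := by
    unfold Word.W
    rw [BF_L_true]
  have hWF : w.W (fun _ => false) z = Real.exp (-(w.Y z / 2) + w.lP z) := by
    unfold Word.W
    rw [BF_L_false hDT w z hz']
  have hsinh : 0 < Real.sinh (w.H z / 2) := Real.sinh_pos_iff.2 (by linarith)
  have hexp : Real.exp (-(w.H z / 2)) = Real.cosh (w.H z / 2) - Real.sinh (w.H z / 2) := by
    rw [Real.cosh_sub_sinh]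
  -- sums with a prescribed sign
  have hsum : ∀ i, (∑ σ : Fin (w.n + 1) → Bool, (if σ i = true then w.W σ z else 0))
      + (∑ σ : Fin (w.n + 1) → Bool, (if σ i = false then w.W σ z else 0)) = w.F z := by
    intro i
    rw [← Finset.sum_add_distrib]
    unfold Word.F
    refine Finset.sum_congr rfl fun σ _ => ?_
    cases h : σ i <;> simp
  have hdiff : ∀ i, (∑ σ : Fin (w.n + 1) → Bool, (if σ i = true then w.W σ z else 0))
      - (∑ σ : Fin (w.n + 1) → Bool, (if σ i = false then w.W σ z else 0))
        = -(2 * Real.sinh (w.H z / 2) * w.ct i z) := by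
    intro i
    have h1 : 2 * Real.sinh (w.H z / 2) * w.ct i z
        = -(∑ σ : Fin (w.n + 1) → Bool, bs (σ i) * w.W σ z) := by
      unfold Word.ct
      field_simp
    rw [h1, neg_neg, ← Finset.sum_sub_distrib]
    refine Finset.sum_congr rfl fun σ _ => ?_
    cases h : σ i
    · simp [BF_bs_false]
    · simp [BF_bs_true]
  have h10 : ∀ i, ∑ σ : Fin (w.n + 1) → Bool, (if σ i = true then w.W σ z else 0)
      = Real.exp (-(w.H z / 2)) + Real.sinh (w.H z / 2) * (1 - w.ct i z) := by
    intro i
    have h1 := hsum i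
    have h2 := hdiff i
    rw [← hcosh] at h1
    rw [hexp]
    linarith
  have h11 : ∀ i, ∑ σ : Fin (w.n + 1) → Bool, (if σ i = false then w.W σ z else 0)
      = Real.exp (-(w.H z / 2)) + Real.sinh (w.H z / 2) * (1 + w.ct i z) := by
    intro i
    have h1 := hsum i
    have h2 := hdiff i
    rw [← hcosh] at h1
    rw [hexp]
    linarith
  refine ⟨hF, hH, hcosh, hWT, hWF, BF_F_eq hDT w z hz', hlP, ?_, BF_Wm_nonneg w z, h10, h11,
    ?_, ?_, ?_⟩
  · have := BF_F_ge hDT w z hz'
    linarith
  · intro i
    have ha : w.W (fun _ => true) z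
        ≤ ∑ σ : Fin (w.n + 1) → Bool, (if σ i = true then w.W σ z else 0) := by
      have := Finset.single_le_sum (s := Finset.univ)
        (f := fun σ : Fin (w.n + 1) → Bool => if σ i = true then w.W σ z else 0)
        (fun σ _ => by
          split_ifs
          · exact (Real.exp_pos _).le
          · exact le_refl _) (Finset.mem_univ (fun _ => true))
      simpa using this
    have hd : w.W (fun _ => false) z
        ≤ ∑ σ : Fin (w.n + 1) → Bool, (if σ i = false then w.W σ z else 0) := by
      have := Finset.single_le_sum (s := Finset.univ)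
        (f := fun σ : Fin (w.n + 1) → Bool => if σ i = false then w.W σ z else 0)
        (fun σ _ => by
          split_ifs
          · exact (Real.exp_pos _).le
          · exact le_refl _) (Finset.mem_univ (fun _ => false))
      simpa using this
    rw [h10 i, hexp] at ha
    rw [h11 i, hexp] at hd
    have hT0 : 0 < w.W (fun _ => true) z := Real.exp_pos _
    have hF0 : 0 < w.W (fun _ => false) z := Real.exp_pos _
    have hprod : w.W (fun _ => true) z * w.W (fun _ => false) z = Real.exp (2 * w.lP z) := by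
      rw [hWT, hWF, ← Real.exp_add]
      congr 1
      ring
    have h1 : 1 < Real.exp (2 * w.lP z) := Real.one_lt_exp_iff.2 (by linarith)
    have hmul : w.W (fun _ => true) z * w.W (fun _ => false) z
        ≤ (Real.cosh (w.H z / 2) - Real.sinh (w.H z / 2)
            + Real.sinh (w.H z / 2) * (1 - w.ct i z))
          * (Real.cosh (w.H z / 2) - Real.sinh (w.H z / 2)
            + Real.sinh (w.H z / 2) * (1 + w.ct i z)) :=
      mul_le_mul ha hd hF0.le (hT0.le.trans ha)
    have hcs := Real.cosh_sq (w.H z / 2)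
    have hlt : (Real.sinh (w.H z / 2) * w.ct i z) ^ 2 < Real.sinh (w.H z / 2) ^ 2 := by
      nlinarith
    have hlt2 : w.ct i z ^ 2 < 1 := by
      have hpos : 0 < Real.sinh (w.H z / 2) ^ 2 := by positivity
      by_contra hcon
      push Not at hcon
      have : Real.sinh (w.H z / 2) ^ 2 * 1 ≤ Real.sinh (w.H z / 2) ^ 2 * w.ct i z ^ 2 :=
        mul_le_mul_of_nonneg_left hcon hpos.le
      nlinarith
    exact (sq_lt_one_iff_abs_lt_one _).1 hlt2
  · intro i
    have h1 := (hDT J (w.A i) z.1 hz').2
    have h2 : (w.A i).g true true z.1 ≤ w.lP z := by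
      unfold Word.lP
      exact Finset.single_le_sum (f := fun i => (w.A i).g true true z.1)
        (fun i _ => (BF_gtt_pos hDT _ _ hz').le) (Finset.mem_univ i)
    have h3 : Real.exp (2 * (w.A i).g true true z.1) ≤ Real.exp (2 * w.lP z) :=
      Real.exp_le_exp.2 (by linarith)
    linarith
  · unfold om Word.e Word.Y Word.t
    dsimp only
    have h1 : ∀ j : J, ((-∑ i, if w.j i = j then w.c i else 0) * z.1 j
        - (∑ i, if w.j i = j then (1 : ℝ) else 0) * z.2 j)
        = -∑ i, (if w.j i = j then (z.2 j + w.c i * z.1 j) else 0) := by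
      intro j
      rw [neg_mul, Finset.sum_mul, Finset.sum_mul, ← Finset.sum_neg_distrib,
        ← Finset.sum_neg_distrib, ← Finset.sum_sub_distrib]
      refine Finset.sum_congr rfl fun i _ => ?_
      split_ifs <;> ring
    rw [Finset.sum_congr rfl fun j _ => h1 j, Finset.sum_neg_distrib, Finset.sum_comm]
    congr 1
    refine Finset.sum_congr rfl fun i _ => ?_
    rw [Finset.sum_ite_eq]
    simp

end Pool.Agent.helper73.AD
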